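import Pool.Agent.Y41.EV.StmD

/-! Lower bound for the `ψ`-variation in the bulk: assembly (project EV). -/

set_option autoImplicit false

namespace Pool.Agent.Y681.EV

open MeasureTheory Filter Topology Pool.Agent.Y995.HG Pool.Agent.Y41.EV

theorem VG.mesh {f : C(unitInterval, ℂ)} {η η' : ℝ} {s t : unitInterval} {x : ℝ}
    (h : VG f η s t x) (hη : η ≤ η') : VG f η' s t x := by
  obtain ⟨n, τ, h1, h2, h3, h4, h5⟩ := h
  exact ⟨n, τ, h1, h2, h3, fun i hi => (h4 i hi).trans hη, h5⟩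

theorem lowbulk : Pool.Agent.Y41.EV.S_TREE2 → Pool.Agent.Y41.EV.S_SC1 →
    Pool.Agent.Y41.EV.S_SC2 → Pool.Agent.Y41.EV.S_SC3 → Pool.Agent.Y41.EV.S_LOWBULK := by
  intro hTree h1 h2 h3 θ K2 A0 hθ hK hA
  obtain ⟨c0, hc0, hsc1⟩ := h1 θ K2 A0 hθ hK hA
  obtain ⟨e1, e2, e3, e4, e5, e6⟩ := h3 θ K2 A0 hθ hK hA
  refine ⟨c0, hc0, fun f T I0 hT0 hP s t hst hI η hη => ?_⟩
  rcases hst.eq_or_lt with heq | hlt
  · rw [heq]
    refine (VG.refl f η t).le ?_
    rw [sub_self, mul_zero]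
  · have hlt' : (s : ℝ) < t := hlt
    have hd : 0 < T * ((t : ℝ) - s) := mul_pos hT0 (by linarith)
    have hu := CompactSpace.uniformContinuous_of_continuous f.continuous
    obtain ⟨δ, hδ, hδ1⟩ := Metric.uniformContinuous_iff.1 hu 1 one_pos
    set η' : ℝ := min η (δ / 2) with hη'
    have hη'0 : 0 < η' := lt_min hη (by positivity)
    have hdist : ∀ u v : unitInterval, |(u : ℝ) - v| ≤ η' → dist (f u) (f v) ≤ 1 := by
      intro u v huv
      refine (hδ1 ?_).le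
      rw [Subtype.dist_eq, Real.dist_eq]
      have : η' ≤ δ / 2 := min_le_right _ _
      linarith
    have hηT : 0 < η' * T := mul_pos hη'0 hT0
    have hev : ∀ᶠ i : ℕ in atTop, (∀ s t : unitInterval, Set.Icc s t ⊆ I0 →
        ell A0 K2 i < T * ((t : ℝ) - s) → Pairs f T (ww i) (tau θ K2 i) (NN i) s t) ∧
        c0 * (2 * tau θ K2 i + 4 * ell A0 K2 (i + 1)) ≤ psi (ww i) ∧ 0 < ell A0 K2 i ∧
        tau θ K2 i ≤ η' * T ∧ ell A0 K2 i ≤ η' * T ∧ ell A0 K2 i < T * ((t : ℝ) - s) := by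
      filter_upwards [hP, hsc1, e5, e2.eventually_le_const hηT, e1.eventually_le_const hηT,
        e1.eventually_lt_const hd] with i a1 a2 a3 a4 a5 a6
      exact ⟨a1, a2, a3, a4, a5, a6⟩
    obtain ⟨i1, hi1⟩ := eventually_atTop.1 hev
    set i0 : ℕ := max i1 20 with hi0
    have hge : ∀ i, i0 ≤ i → i1 ≤ i ∧ 20 ≤ i := by
      intro i hi
      exact ⟨(le_max_left _ _).trans hi, (le_max_right _ _).trans hi⟩
    obtain ⟨m, hm⟩ := ((h2 K2 A0 hK hA i0).eventually_ge_atTop c0).exists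
    have key := hTree f η' T c0 NN (ell A0 K2) (tau θ K2) ww (aa A0 K2) i0 I0 hη'0 hT0 hc0 hdist
      (fun i hi => ?_) (fun i hi => (hi1 i (hge i hi).1).2.1) (fun i hi => ?_)
      (fun i hi s' t' hI' hl => ((hi1 i (hge i hi).1).1 s' t' hI' hl).sort (ww_pos i))
      m s t hI (hi1 i0 (hge i0 le_rfl).1).2.2.2.2.2
    · rw [min_eq_left hm] at key
      refine (VG.mesh key (min_le_left _ _)).le (le_of_eq ?_)
      ring
    · obtain ⟨-, -, b1, b2, b3, -⟩ := hi1 i (hge i hi).1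
      refine ⟨?_, ww_pos i, b1, ?_, b2, b3⟩
      · have := NN_big (hge i hi).2
        omega
      · unfold aa
        have := psi_nonneg (ww_pos i).le
        positivity
    · obtain ⟨-, -, b1, -, -, -⟩ := hi1 i (hge i hi).1
      unfold aa
      refine le_of_eq ?_
      field_simp

end Pool.Agent.Y681.EV
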